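import Mathlib
import Pool.Agent.H42.Game.Def
import Pool.Agent.H42.Game.Lower
import Pool.Agent.H42.Game.Strategy

set_option autoImplicit false

namespace Pool.Agent.Results.MP_f2e062_co.FiveOrSix

open H42Game (PlayerOneWins)

/-- The least `c` for which Player 1 has a strategy in the `c`-ary sequence game (avoiding all
repetitions of total length at least `3`) is `5` or `6`. -/
theorem result :
    IsLeast {c : ℕ | PlayerOneWins c} 5 ∨ IsLeast {c : ℕ | PlayerOneWins c} 6 := by
  by_cases h : PlayerOneWins 5
  · left
    refine ⟨h, fun c hc => ?_⟩
    by_contra hlt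
    exact H42Game.lower (by omega) hc
  · right
    refine ⟨H42Game.upper le_rfl, fun c hc => ?_⟩
    by_contra hlt
    rcases Nat.lt_or_ge c 5 with h5 | h5
    · exact H42Game.lower (by omega) hc
    · have : c = 5 := by omega
      subst this
      exact h hc

end Pool.Agent.Results.MP_f2e062_co.FiveOrSix
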